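import Pool.Agent.H859.TWC.Cnt2
import Pool.Agent.H859.TWC.Fin
import Pool.Graph.R_pool_sql_team_seeded_63374d34.N874.JM.Gnu
import Pool.Graph.R_pool_sql_team_seeded_63374d34.N874.Jac.Def

/-!
# The Tate conjecture for a positive proportion of the odd hyperelliptic fibrations in every residue
# class, over infinitely many towers of double covers with a given one, in every odd characteristic

Let `g ≥ 1`, let `k` be ANY finite field of odd characteristic (also of characteristic `p ≤ 2 g + 1`, for
example elliptic surfaces, `g = 1`, in characteristic three, where the curves have wild reduction), and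
`K = k(t)`. We consider ALL monic polynomials `f(x, t)` of degree `2 g + 1` in `x` over `k[t]`, with
nonzero discriminant, such that the equation `y ^ 2 = f(x, t)` is minimal (there are no irreducible `P` and
no `c` in `k[t]` such that `f(x + c)` has a coefficient of `x ^ j` which is divisible by
`P ^ (2 (2 g + 1 - j))` for all `j`); the height of `f` is the least `N` with `deg f_j ≤ N (2 g + 1 - j)`
for all `j`.

For `f` and a finite set `S` of primes of `k[t]` let `C(f, S)` be the class of the finite Galois extensions
`M` of `K` of 2-power degree in which all `Q ∈ S` split completely and in which only such primes `P` of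
`k[t]` are ramified modulo which `f` is irreducible (there is no condition at infinity). It is closed under
the composition of fields.

Theorem. Let `M₀` be a finite Galois extension of `K` of degree `2 ^ n` (ramified anywhere, with any
constants). Let `m ≠ 0` and let `f₁` be monic of degree `2 g + 1` over `k[t]` such that the discriminant of
`f₁` is not divisible by the square of a prime divisor of `m` and `f₁` is irreducible modulo those prime
divisors of `m` which are ramified in `M₀`. There are a finite set `S` of primes which do not divide `m`
and split completely in `M₀`, and a constant `c > 0`, such that for all large `N` at least `c` times the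
number of all the minimal `f` of height at most `N` are congruent to `f₁` modulo `m`, irreducible over `K`,
have `M₀ ∈ C(f, S)`, and have the following property for ALL the fields `E` between `K` and a field
`M ∈ C(f, S)`: multiplication by two is bijective on `J(E)`, `J` the Jacobian of `y ^ 2 = f(x)`, and all
classes of 2-power order in the Tate-Shafarevich group of `J` over `E` are zero, even without conditions at
the places over infinity.

So one positive proportion of `f` is good for infinitely many fields `E` at once, with unbounded degrees:
all the fields between `K` and the compositum `M₀ M` for all `M ∈ C(f, S)`. The fields `E` are function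
fields of curves `B` with a map to the line which is a composition of maps of degree two. Let `X` be a
smooth projective surface with a map to `B` with generic fibre `y ^ 2 = f(x)`; it has a section. The Brauer
group of `X` is the Tate-Shafarevich group of `J` over `E` (Artin, Grothendieck), so its 2-primary part is
zero, and by the theorem of Artin, Tate and Milne the Tate conjecture for divisors holds for `X`, at all
primes `ℓ`; `J(E)` is a finite group of odd order (Lang, Neron). At finitely many places of the line the
fibres of the surface over the line may be prescribed: arbitrary smooth ones, or with one node (split or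
not).

Here `J(L)` is the Picard group of the affine coordinate ring `L[x, y] / (y ^ 2 - f)` (the curve has one
point at infinity, which is rational), and the Tate-Shafarevich group is defined by continuous cocycles on
the absolute Galois group with values in `J` of the separable closure.

What was known. The theorem of the library of an earlier run (`MP_89bcae_ag.SurfacesOverTwoCovers`) has one
field `M` given first, characteristic larger than `2 g + 1`, no `x ^ (2 g)` term and no residue class;
`MP_ff7320_nt.UniformOverTwoExtensions` has all the `M` but none of them can be given first, the same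
restriction of the characteristic, and only classes with `f` irreducible modulo the given primes. An
earlier form of this theorem in this run (`EveryOddCharacteristic`, withdrawn, contained in this one) had
the fields between `K` and `M₀` only and no residue class.

Proof. The polynomials which are counted are the twists of polynomials `f` with squarefree discriminant by
products of primes in `S`. The primes in `S` are chosen congruent to one modulo the square of the product
of `m` and the primes which are ramified in `M₀`, and completely split in `M₀`: there are infinitely many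
of them, because infinitely many primes split completely in the compositum of `M₀` and the splitting field
of a polynomial `C_m` of the Carlitz module (Kummer-Dedekind away from an index, and a counting argument),
and a prime `Q` modulo which `C_m` splits is congruent to one modulo `m`, as `Q - 1` kills the Carlitz
module of `k[t] / Q`. The residue class is refined by the Chinese remainder theorem: modulo the other
primes `P` which are ramified in `M₀` the polynomial is chosen irreducible; its discriminant is then not
divisible by `P`. The squarefree discriminants in the residue class are counted by a sieve (Poonen, and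
the lemma of Schwartz and Zippel for characteristic `p ≤ 2 g + 1`). Self-dual lattices of rank `2 g + 1`
over the line with a self-adjoint operator, a reciprocity law and linear algebra give for most `f` a twist
for which a Selmer group over `K` is zero; a group of elements of `M(θ)` modulo squares which is stable
under the Galois group is zero because its invariant part is; and the Selmer group over a field between
`K` and `M` is zero if that over `M` is.

Helper files: `Pool/Agent/H859/TWC/`, `Pool/Agent/H859/SC/` (helper859), mostly after the files of the
projects PJ (helper352), JM, TW (helper874) with parts by many helpers of the run 63374d34, who are named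
in `SurfacesOverTwoCovers` and `UniformOverTwoExtensions`.
-/

set_option autoImplicit false
set_option linter.all false

namespace Pool.Agent.Results.MP_89bcae_ag.AllTowersOverGivenCover

open Polynomial Filter IsDedekindDomain
open Pool.Agent.N874.Jac (UniquelyTwoDivisible ShaTwoTrivial)
open scoped Classical

/-- `y ^ 2 = f(x, t)` is a minimal equation of a surface fibred in curves of genus `g` with a section of
Weierstrass points over the `t`-line, of height at most `N`. -/
structure IsSurface {k : Type} [Field k] (K : Type) [Field K] [Algebra k[X] K] (g N : ℕ)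
    (f : k[X][X]) : Prop where
  monic : f.Monic
  degree : f.natDegree = 2 * g + 1
  height : ∀ j ≤ 2 * g, (f.coeff j).natDegree ≤ N * (2 * g + 1 - j)
  smooth : (f.map (algebraMap k[X] K)).Separable
  minimal : ∀ P c : k[X], Irreducible P →
    ¬ ∀ j < 2 * g + 1, P ^ (2 * (2 * g + 1 - j)) ∣ (f.comp (X + C c)).coeff j

/-- The surfaces of genus `g` and height at most `N`. -/
def Surfaces (k : Type) [Field k] (K : Type) [Field K] [Algebra k[X] K] (g N : ℕ) : Set k[X][X] :=
  {f | IsSurface K g N f}

/-- Multiplication by two is bijective on `J(E)`, `J` the Jacobian of `y ^ 2 = F(x)`, and every class of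
2-power order in `H ^ 1 (E, J)` which is zero over the completions of `E` at all maximal ideals of `R` is
zero. -/
def NoTwoPart (R : Type) {E : Type} [Field E] [CommRing R] [IsDedekindDomain R] [Algebra R E]
    [IsFractionRing R E] (F : E[X]) : Prop :=
  UniquelyTwoDivisible F ∧ ShaTwoTrivial F R

/-- `f` is irreducible modulo `P`. -/
def IrreducibleMod {k : Type} [Field k] (f : k[X][X]) (P : k[X]) : Prop :=
  Irreducible (f.map (Ideal.Quotient.mk (Ideal.span {P})))

/-- `P` is unramified in the extension `R` of `k[t]`. -/
def Unramified {k : Type} [Field k] (R : Type) [CommRing R] [Algebra k[X] R] (P : k[X]) : Prop :=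
  ∀ w : HeightOneSpectrum R, algebraMap k[X] R P ∈ w.asIdeal → algebraMap k[X] R P ∉ w.asIdeal ^ 2

/-- `Q` splits completely in the extension `R` of `k[t]`: it is unramified, and every element of `R` is
congruent to a polynomial modulo every prime over `Q`. -/
def SplitsCompletely {k : Type} [Field k] (R : Type) [CommRing R] [Algebra k[X] R] (Q : k[X]) :
    Prop :=
  Unramified R Q ∧ ∀ w : HeightOneSpectrum R, algebraMap k[X] R Q ∈ w.asIdeal →
    ∀ y : R, ∃ c : k[X], y - algebraMap k[X] R c ∈ w.asIdeal

/-- The field `M`, in which `R` is the integral closure of `k[t]`, belongs to the class of `f` and `S`: it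
is (finite, Galois and) of 2-power degree over `K`, all `Q ∈ S` split completely in it, and only such
primes `P` are ramified in it modulo which `f` is irreducible. -/
structure InClass {k : Type} [Field k] (K : Type) [Field K] (S : Finset k[X]) (f : k[X][X])
    (M : Type) [Field M] [Algebra K M] (R : Type) [CommRing R] [Algebra k[X] R] : Prop where
  degree : ∃ n : ℕ, Module.finrank K M = 2 ^ n
  splits : ∀ Q ∈ S, SplitsCompletely R Q
  ramified : ∀ P : k[X], Irreducible P → Unramified R P ∨ IrreducibleMod f P

/-- The Jacobian of `y ^ 2 = f(x)` has no 2-part over ALL the fields `E` between `K = k(t)` and a finite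
Galois extension `M` of `K` which belongs to the class of `f` and `S`. Here `R` is the integral closure of
`k[t]` in `M`, and `R'` that in `E`. -/
def NoTwoPartUniformly {k : Type} [Field k] (K : Type) [Field K] [Algebra k[X] K]
    (S : Finset k[X]) (f : k[X][X]) : Prop :=
  ∀ (M : Type) [Field M] [Algebra K M] [Algebra k[X] M] [IsScalarTower k[X] K M]
    [FiniteDimensional K M] [IsGalois K M] (R : Type) [CommRing R] [IsDedekindDomain R]
    [Algebra R M] [IsFractionRing R M] [Algebra k[X] R] [IsScalarTower k[X] R M]
    [IsIntegralClosure R k[X] M], InClass K S f M R →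
    ∀ (E : IntermediateField K M) (R' : Type) [CommRing R'] [IsDedekindDomain R'] [Algebra R' E]
      [IsFractionRing R' E] [Algebra k[X] R'] [IsScalarTower k[X] R' E]
      [IsIntegralClosure R' k[X] E], NoTwoPart R' (f.map (algebraMap k[X] E))

/-- The surfaces of genus `g` and height at most `N` for which `f` is congruent to `f₁` modulo `m` and
irreducible over `K`, the given field `M₀` belongs to the class of `f` and `S`, and the curve
`y ^ 2 = f(x)` has no 2-part over all the fields between `K` and a field of the class of `f` and `S`. -/
def NoTwoPartInTowers (k : Type) [Field k] (K : Type) [Field K] [Algebra k[X] K]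
    (M₀ : Type) [Field M₀] [Algebra K M₀] (R₀ : Type) [CommRing R₀] [Algebra k[X] R₀]
    (S : Finset k[X]) (m : k[X]) (f₁ : k[X][X]) (g N : ℕ) : Set k[X][X] :=
  {f ∈ Surfaces k K g N | (∀ j, m ∣ f.coeff j - f₁.coeff j) ∧
    Irreducible (f.map (algebraMap k[X] K)) ∧ InClass K S f M₀ R₀ ∧ NoTwoPartUniformly K S f}

/-- Let `g ≥ 1`, `k` a finite field of odd characteristic, `M₀` a finite Galois extension of `K = k(t)` of
degree `2 ^ n`, `m ≠ 0` in `k[t]` and `f₁` monic of degree `2 g + 1` over `k[t]` such that the discriminant
of `f₁` is not divisible by the square of a prime divisor of `m`, and `f₁` is irreducible modulo the prime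
divisors of `m` which are ramified in `M₀`. There are a finite set `S` of primes of `k[t]` which do not
divide `m` and split completely in `M₀`, and a positive constant `c`, such that for all large `N` at least
`c` times the number of all the surfaces `y ^ 2 = f(x, t)` of genus `g` and height at most `N` have `f`
congruent to `f₁` modulo `m`, irreducible over `K` and irreducible modulo all the primes of `k[t]` which
are ramified in `M₀`, and a Jacobian `J` such that for ALL the fields `E` between `K` and a finite Galois
extension of `K` of 2-power degree in which all `Q ∈ S` split completely and in which only primes are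
ramified modulo which `f` is irreducible (`M₀` is one of them) multiplication by two is bijective on `J(E)`
and the 2-primary part of the Tate-Shafarevich group of `J` over `E` is zero. -/
theorem result (g : ℕ) (hg : 1 ≤ g) (k : Type) [Field k] [Finite k] (hp : (2 : k) ≠ 0)
    (K : Type) [Field K] [Algebra k[X] K] [IsFractionRing k[X] K]
    (M₀ : Type) [Field M₀] [Algebra K M₀] [Algebra k[X] M₀] [IsScalarTower k[X] K M₀]
    [FiniteDimensional K M₀] [IsGalois K M₀]
    (R₀ : Type) [CommRing R₀] [IsDedekindDomain R₀] [Algebra R₀ M₀] [IsFractionRing R₀ M₀]
    [Algebra k[X] R₀] [IsScalarTower k[X] R₀ M₀] [IsIntegralClosure R₀ k[X] M₀]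
    (n : ℕ) (hn : Module.finrank K M₀ = 2 ^ n) (m : k[X]) (hm : m ≠ 0)
    (f₁ : k[X][X]) (hf₁ : f₁.Monic) (hd₁ : f₁.natDegree = 2 * g + 1)
    (hdisc : ∀ P : k[X], Irreducible P → P ∣ m → ¬ P ^ 2 ∣ f₁.discr)
    (hram : ∀ P : k[X], Irreducible P → P ∣ m → Unramified R₀ P ∨ IrreducibleMod f₁ P) :
    (∀ N : ℕ, (Surfaces k K g N).Finite) ∧
    ∃ S : Finset k[X],
      (∀ Q ∈ S, Q.Monic ∧ Irreducible Q ∧ ¬ Q ∣ m ∧ SplitsCompletely R₀ Q) ∧
      ∃ c : ℝ, 0 < c ∧ ∀ᶠ N : ℕ in atTop, 0 < (Surfaces k K g N).ncard ∧
        c * ((Surfaces k K g N).ncard : ℝ) ≤
          ((NoTwoPartInTowers k K M₀ R₀ S m f₁ g N).ncard : ℝ) := by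
  have hsub : ∀ N, Surfaces k K g N ⊆ {f : k[X][X] | Pool.Agent.H859.PJ.HtA g N f} :=
    fun N f hf => ⟨hf.monic, hf.degree, hf.height⟩
  have hfin : ∀ N, (Surfaces k K g N).Finite := fun N =>
    (Pool.Agent.H859.N415.PJMAIN.ht_card (k := k) g N).1.subset (hsub N)
  refine ⟨hfin, ?_⟩
  obtain ⟨S, hS', c, hc, N₀, hN₀⟩ := Pool.Agent.H859.TWC.final_given k hg hp K M₀ R₀ hm hf₁ hd₁
    hdisc hram
  have hS : ∀ Q ∈ S, Q.Monic ∧ Irreducible Q ∧ ¬ Q ∣ m ∧ SplitsCompletely R₀ Q := fun Q hQ =>
    ⟨(hS' Q hQ).1, (hS' Q hQ).2.1, (hS' Q hQ).2.2.1, fun w hw => ((hS' Q hQ).2.2.2 w hw).1,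
      fun w hw => ((hS' Q hQ).2.2.2 w hw).2⟩
  refine ⟨S, hS, c, hc, ?_⟩
  filter_upwards [eventually_ge_atTop N₀] with N hN
  obtain ⟨hHt, hle⟩ := hN₀ N hN
  have hsub2 : {f : k[X][X] | Pool.Agent.H859.PJ.HtA g N f ∧ Pool.Agent.H859.PJ.MiniA g f ∧
      (f.map (algebraMap k[X] K)).Separable ∧ Irreducible (f.map (algebraMap k[X] K)) ∧
      Pool.Agent.N352.PJ.Cg (m ^ 2) f f₁ ∧
      (∀ P : k[X], Irreducible P → Pool.Agent.H859.TWC.Unr R₀ P ∨
          Irreducible (f.map (Ideal.Quotient.mk (Ideal.span {P})))) ∧
      Pool.Agent.H859.N874.TW.Uni K S f f} ⊆
      NoTwoPartInTowers k K M₀ R₀ S m f₁ g N := by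
    rintro f ⟨a1, a2, a3, a4, a5, a7, a6⟩
    refine ⟨⟨a1.mon, a1.deg, a1.ht, a3, a2⟩,
      fun j => (dvd_pow_self m two_ne_zero).trans (a5 j), a4,
      ⟨⟨n, hn⟩, fun Q hQ => (hS Q hQ).2.2.2, a7⟩, ?_⟩
    intro M _ _ _ _ _ _ R _ _ _ _ _ _ _ hMC E R' _ _ _ _ _ _ _
    obtain ⟨⟨n', hn'⟩, hQ, hP⟩ := hMC
    have hsel : Pool.Agent.N874.JM.SelF R (f.map (algebraMap k[X] M)) := by
      refine a6 M R n' hn' (fun Q hQS w hw => ?_) (fun P hPm hPi hram => ?_)
      · refine ⟨(Pool.Agent.N874.TW.val_iff Q w hw).2 ((hQ Q hQS).1 w hw), fun y => ?_⟩
        obtain ⟨y, rfl⟩ := Ideal.Quotient.mk_surjective y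
        obtain ⟨b, hb⟩ := (hQ Q hQS).2 w hw y
        exact ⟨b, (Ideal.Quotient.eq.2 hb).symm⟩
      · rcases hP P hPi with h | h
        · obtain ⟨w, hw, hne⟩ := hram
          exact absurd ((Pool.Agent.N874.TW.val_iff P w hw).2 (h w hw)) hne
        · exact h
    haveI : IsScalarTower k[X] K E := IntermediateField.isScalarTower _
    have hfE : Module.finrank K E ∣ 2 ^ n' := by
      rw [← hn', ← Module.finrank_mul_finrank K E M]
      exact dvd_mul_right _ _
    obtain ⟨m', -, hm'⟩ := (Nat.dvd_prime_pow Nat.prime_two).1 hfE
    obtain ⟨h4, h5⟩ := Pool.Agent.N874.JM.genuine K E R' hm' hp a1.mon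
      (by rw [a1.deg]; exact odd_two_mul_add_one g) a3 a4
      (Pool.Agent.H859.TWC.uni_down hp K M R hn' a1.mon a1.deg a3 a4 hsel E R')
    exact ⟨Pool.Agent.N874.Jac.div_of _ h4, Pool.Agent.N874.Jac.sha_of _ R' h5⟩
  have hfin2 : (NoTwoPartInTowers k K M₀ R₀ S m f₁ g N).Finite :=
    (hfin N).subset fun f hf => hf.1
  have h1 := Set.ncard_le_ncard hsub2 hfin2
  have h2 : c * ({f : k[X][X] | Pool.Agent.H859.PJ.HtA g N f}.ncard : ℝ) ≤
      ((NoTwoPartInTowers k K M₀ R₀ S m f₁ g N).ncard : ℝ) := hle.trans (by exact_mod_cast h1)
  have hne : 0 < {f : k[X][X] | Pool.Agent.H859.PJ.HtA g N f}.ncard := by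
    rw [Set.ncard_pos hHt]
    refine ⟨X ^ (2 * g + 1), monic_X_pow _, natDegree_X_pow _, fun j hj => ?_⟩
    rw [coeff_X_pow, if_neg (by omega), natDegree_zero]
    exact Nat.zero_le _
  have h3 : 0 < ((NoTwoPartInTowers k K M₀ R₀ S m f₁ g N).ncard : ℝ) := by
    refine lt_of_lt_of_le ?_ h2
    exact mul_pos hc (by exact_mod_cast hne)
  refine ⟨?_, ?_⟩
  · have h4 := Set.ncard_le_ncard (s := NoTwoPartInTowers k K M₀ R₀ S m f₁ g N)
      (t := Surfaces k K g N) (fun f hf => hf.1) (hfin N)
    have h5 : 0 < (NoTwoPartInTowers k K M₀ R₀ S m f₁ g N).ncard := by exact_mod_cast h3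
    omega
  · refine le_trans ?_ h2
    have h4 := Set.ncard_le_ncard (hsub N) hHt
    exact mul_le_mul_of_nonneg_left (by exact_mod_cast h4) hc.le

end Pool.Agent.Results.MP_89bcae_ag.AllTowersOverGivenCover
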