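import Pool.Agent.H859.AL.Seq

/-!
# The Tate conjecture for divisors: 100 percent of the hyperelliptic fibrations and of their tuples, after
# small quadratic twists, over all the layers of a given infinite tower of covers

Let `k` be any finite field of odd characteristic, `K = k(t)`, `r ≥ 1` and `g_1, ..., g_r ≥ 1`. For monic
polynomials `f_j(x, t)` of degrees `2 g_j + 1` in `x` let `X_j` be the surface `y ^ 2 = f_j(x, t)`, fibred
over the `t`-line in curves of genus `g_j`.

Let `L_0 ⊆ L_1 ⊆ L_2 ⊆ ...` be ANY tower of finite Galois extensions of `K` of 2-power degrees; the degrees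
may tend to infinity, and the tower may contain the constant extensions `k'(t)` of degree `2 ^ i`, for all
`i`. Let `m ≠ 0` be a polynomial which is divisible by all the primes of `k[t]` which are ramified in the
tower. For instance the union of the `L_i` can be the maximal pro-2-extension of `K` which is unramified
outside `m` (and arbitrarily ramified at infinity), or the tower of constants (with any `m`). For each `j` a
residue class `f₁_j` modulo `m ^ 2` is given; `f₁_j` is monic of degree `2 g_j + 1`, irreducible modulo the
primes ramified in the tower, and its discriminant is not divisible by the square of a prime divisor of `m`.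
Let `F_N` be the set of the `r`-tuples of polynomials `f_j(x) = x ^ (2 g_j + 1) + ∑ f_(j,i) x ^ i` with
`deg f_(j,i) ≤ 2 N (2 g_j + 1 - i)` for which, for all `j`,

* the polynomial over `k` with the coefficients of `t ^ (2 N (2 g_j + 1 - i))` in the `f_(j,i)` is
  irreducible (good and irreducible reduction at infinity);
* the discriminant of `f_j` is squarefree (all the bad fibres have one node);
* `f_j` is congruent to `f₁_j` modulo `m ^ 2`.

This is a family of positive density among all the tuples of monic polynomials of the given height. For a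
squarefree polynomial `D_j` let `J_j` be the Jacobian of the curve `y ^ 2 = D_j ^ (2 g_j + 1) f_j(x / D_j)`.

Theorem. Let `w(N)` be ANY sequence of natural numbers which tends to infinity. There is a sequence `v(N)`
which tends to infinity such that for 100 percent of the tuples in `F_N` (the proportion tends to `1` as `N`
tends to infinity) there are squarefree polynomials `D_1, ..., D_r` of degrees at most `w(N)` with the
following property: for ALL the fields `E` between `K` and `L_(v(N))` and all `j`, multiplication by two is
bijective on `J_j(E)`, and all classes of 2-power order in the Tate-Shafarevich group of `J_j` over `E` are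
zero, even without conditions at the places over infinity.

Consequences for the problem. Let `E` be such a field, `B_E` the curve with function field `E` and `k_E` its
field of constants. By Artin, Tate and Milne the whole Tate-Shafarevich groups of the `J_j` over `E` are
finite. Let `𝒳` be any smooth projective geometrically irreducible surface over `k_E` with a map to `B_E`
whose generic fibre is a curve `C` such that the Jacobian of `C` is an isogeny factor over `E` of a product of
powers of `J_1, ..., J_r`; for example (`r = 1`) `C` is the curve `y ^ 2 = D ^ (2 g + 1) f(x / D)` itself, a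
quotient of it, or any curve with an isogenous Jacobian, and for `r ≥ 2` any curve which is dominated by
or obtained by glueing the curves `C_j : y ^ 2 = D_j ^ (2 g_j + 1) f_j(x / D_j)` of the tuple. The finiteness
of the Tate-Shafarevich group is inherited by isogeny factors, so `Br(𝒳)` is finite (Artin, Grothendieck,
Milne, Liu-Lorenzini-Raynaud), and `c` is an isomorphism for `𝒳` and all primes `l`: Q1 holds for `𝒳`.
For `r = 1` these are, for 100 percent of the fibrations of any genus in the family, a small twist of the
surface `X_f` and all its pullbacks to the curves `B_E`, `E ⊆ L_(v(N))`, which include the surface over all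
the constant extensions of degree `2 ^ i`, `i ≤ v(N)`, if the tower contains these.

In all dimensions: let `Y` be any smooth projective variety over `k_E`, of dimension `r + 1`, which is
birational to the fibre product over `B_E` of the `r` surfaces `y ^ 2 = D_j ^ (2 g_j + 1) f_j(x / D_j)`. Its
generic fibre over `B_E` is a product of curves, for which the Tate conjecture for divisors over `E` is the
theorem of Zarhin on the homomorphisms of abelian varieties over function fields, and the Picard variety
of the generic fibre is the product of the `J_j`. So the Tate conjecture for divisors holds for `Y` and all `l`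
(Geisser, Qin: for a fibration over a curve over a finite field it is equivalent to the Tate conjecture for
divisors on the generic fibre and the finiteness of the Tate-Shafarevich group of its Picard variety),
and also for all smooth projective surfaces (and varieties) which are dominated by such a `Y`.

Finitely generated fields. Let `κ` be any finitely generated field whose field of constants (the algebraic
closure of the prime field in it) is one of the `k_E`. The Galois group of `κ` acts on the second cohomology
of `𝒳 ⊗ κ` through that of `k_E`, and the Néron-Severi group of `𝒳` does not change; so Q1 holds for `𝒳 ⊗ κ`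
over `κ` as well.

What was known. The library and this run have positive proportions of surfaces without a twist
(`MP_89bcae_ag.AllTowersOverGivenCover`). For twists the exponential bound for the exceptional sets is from
`MP_60d5ce_nt.SmallTwistOfAlmostAll` (one curve, no rate for towers); density one for one given extension
is `MP_72e2e6_nt.HundredPercentAfterTwist`, and for the tower of constants
`MP_1bad5e_ag.AlmostAllOverConstantTower`, by the same author in this run. Here a whole infinite tower of
covers, with the constants, is given first, and the varieties have any dimension.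
`MP_8ac872_ag.FibreProductsOverGivenCover` has classes of fields which depend on the tuple, with a rate;
neither contains the other.

Proof. The constant `C` in the bound `C (1 - 1 / (32 g)) ^ s` for the exceptional set does not depend on the
set of `s` primes whose divisors are used for the twist. For every layer there are infinitely many primes
which split completely in it; `s` of them are used for the layer `L_s`, and a diagonal argument gives
`v(N)`.

Helper files: `Pool/Agent/H859/AL/` (helper859, new); `Pool/Agent/H859/TWC/`, `Pool/Agent/H859/SC/`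
(helper859), mostly after the files of the projects PJ (helper352), JM, TW (helper874) with parts by many
helpers of the run 63374d34; classification of quadratic forms: helper747; Gram matrices: helper644.
-/

set_option autoImplicit false
set_option linter.all false

namespace Pool.Agent.Results.MP_89bcae_ag.FibreProductsInTowers

open Polynomial Filter IsDedekindDomain Topology
open Pool.Agent.N874.Jac (UniquelyTwoDivisible ShaTwoTrivial)
open scoped Classical

/-- The monic polynomials of degree `2 g + 1` over `k[t]` and height at most `2 N`. -/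
def Polynomials (k : Type) [Field k] (g N : ℕ) : Set k[X][X] :=
  {f | f.Monic ∧ f.natDegree = 2 * g + 1 ∧
    ∀ j ≤ 2 * g, (f.coeff j).natDegree ≤ 2 * N * (2 * g + 1 - j)}

/-- The reduction at infinity of `f`. -/
noncomputable def atInfinity {k : Type} [Field k] (g N : ℕ) (f : k[X][X]) : k[X] :=
  X ^ (2 * g + 1) + ∑ j ∈ Finset.range (2 * g + 1),
    C ((f.coeff j).coeff (2 * N * (2 * g + 1 - j))) * X ^ j

/-- The surfaces `y ^ 2 = f(x, t)`: `f` is irreducible at infinity, with squarefree discriminant, congruent
to `f₁` modulo `m ^ 2`. -/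
def Surfaces {k : Type} [Field k] (g : ℕ) (m : k[X]) (f₁ : k[X][X]) (N : ℕ) : Set k[X][X] :=
  {f ∈ Polynomials k g N | Irreducible (atInfinity g N f) ∧ Squarefree f.discr ∧
    ∀ j, m ^ 2 ∣ f.coeff j - f₁.coeff j}

/-- All `r`-tuples of monic polynomials of the degrees `2 g_j + 1` and height at most `2 N`. -/
def AllTuples (k : Type) [Field k] {r : ℕ} (g : Fin r → ℕ) (N : ℕ) : Set (Fin r → k[X][X]) :=
  {f | ∀ j, f j ∈ Polynomials k (g j) N}

/-- The family `F_N` of `r`-tuples of surfaces. -/
def Tuples {k : Type} [Field k] {r : ℕ} (g : Fin r → ℕ) (m : k[X]) (f₁ : Fin r → k[X][X]) (N : ℕ) :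
    Set (Fin r → k[X][X]) :=
  {f | ∀ j, f j ∈ Surfaces (g j) m (f₁ j) N}

/-- Multiplication by two is bijective on `J(E)`, `J` the Jacobian of `y ^ 2 = F(x)`, and every class of
2-power order in `H ^ 1 (E, J)` which is zero over the completions of `E` at all maximal ideals of `R` is
zero. -/
def NoTwoPart (R : Type) {E : Type} [Field E] [CommRing R] [IsDedekindDomain R] [Algebra R E]
    [IsFractionRing R E] (F : E[X]) : Prop :=
  UniquelyTwoDivisible F ∧ ShaTwoTrivial F R

/-- `f` is irreducible modulo `P`. -/
def IrreducibleMod {k : Type} [Field k] (f : k[X][X]) (P : k[X]) : Prop :=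
  Irreducible (f.map (Ideal.Quotient.mk (Ideal.span {P})))

/-- `P` is unramified in the extension `R` of `k[t]`. -/
def Unramified {k : Type} [Field k] (R : Type) [CommRing R] [Algebra k[X] R] (P : k[X]) : Prop :=
  ∀ w : HeightOneSpectrum R, algebraMap k[X] R P ∈ w.asIdeal → algebraMap k[X] R P ∉ w.asIdeal ^ 2

/-- `L_0 ⊆ L_1 ⊆ L_2 ⊆ ...` is a tower of finite Galois extensions of `K` of 2-power degrees. -/
structure IsTower (K Ω : Type) [Field K] [Field Ω] [Algebra K Ω] (L : ℕ → IntermediateField K Ω) :
    Prop where
  tower : Monotone L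
  finite : ∀ i, FiniteDimensional K (L i)
  galois : ∀ i, IsGalois K (L i)
  degree : ∀ i, ∃ n : ℕ, Module.finrank K (L i) = 2 ^ n

/-- The Jacobian of `y ^ 2 = F(x)` has no 2-part over all the fields `E` between `K = k(t)` and `L`. Here
`R` is the integral closure of `k[t]` in `E`. -/
def NoTwoPartBelow {k : Type} [Field k] (K : Type) [Field K] [Algebra k[X] K]
    (L : Type) [Field L] [Algebra K L] [Algebra k[X] L] [IsScalarTower k[X] K L]
    (F : k[X][X]) : Prop :=
  ∀ (E : IntermediateField K L) (R : Type) [CommRing R] [IsDedekindDomain R] [Algebra R E]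
    [IsFractionRing R E] [Algebra k[X] R] [IsScalarTower k[X] R E] [IsIntegralClosure R k[X] E],
    NoTwoPart R (F.map (algebraMap k[X] E))

/-- For some squarefree `D` of degree at most `w` the quadratic twist by `D` of the Jacobian of
`y ^ 2 = f(x)`, the Jacobian of `y ^ 2 = D ^ (2 g + 1) f(x / D)`, has no 2-part over all the fields between
`K` and `L`. -/
def HasGoodTwist {k : Type} [Field k] (K : Type) [Field K] [Algebra k[X] K]
    (L : Type) [Field L] [Algebra K L] [Algebra k[X] L] [IsScalarTower k[X] K L]
    (w : ℕ) (f : k[X][X]) : Prop :=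
  ∃ D : k[X], Squarefree D ∧ D.natDegree ≤ w ∧ NoTwoPartBelow K L (f.scaleRoots D)

/-- Let `k` be a finite field of odd characteristic, `K = k(t)`, `L_0 ⊆ L_1 ⊆ ...` a tower of finite Galois
extensions of `K` of 2-power degrees, `m ≠ 0`, and for `j < r` let `g_j ≥ 1` and `f₁_j` be monic of degree
`2 g_j + 1` over `k[t]` such that the discriminant of `f₁_j` is not divisible by the square of a prime
divisor of `m`, the primes which are ramified in the tower divide `m`, and `f₁_j` is irreducible modulo
these. The family `F_N` has positive density in the set of all tuples of the same height. For every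
sequence `w(N)` which tends to infinity there is a sequence `v(N)` which tends to infinity such that the
proportion of the tuples in `F_N` for which there are squarefree polynomials `D_j` of degree at most `w(N)`
such that for the quadratic twists `J_j` by `D_j` of the Jacobians of `y ^ 2 = f_j(x)` and ALL the fields `E`
between `K` and `L_(v(N))` multiplication by two is bijective on all `J_j(E)` and the 2-primary parts of the
Tate-Shafarevich groups of all `J_j` over `E` are zero, tends to `1`. -/
theorem result (r : ℕ) (g : Fin r → ℕ) (hg : ∀ j, 1 ≤ g j)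
    (k : Type) [Field k] [Finite k] (hp : (2 : k) ≠ 0)
    (K : Type) [Field K] [Algebra k[X] K] [IsFractionRing k[X] K]
    (Ω : Type) [Field Ω] [Algebra K Ω] [Algebra k[X] Ω] [IsScalarTower k[X] K Ω]
    (L : ℕ → IntermediateField K Ω) (hL : IsTower K Ω L) (m : k[X]) (hm : m ≠ 0)
    (f₁ : Fin r → k[X][X]) (hf₁ : ∀ j, (f₁ j).Monic) (hd₁ : ∀ j, (f₁ j).natDegree = 2 * g j + 1)
    (hdisc : ∀ (j : Fin r) (P : k[X]), Irreducible P → P ∣ m → ¬ P ^ 2 ∣ (f₁ j).discr)
    (hram : ∀ (i : ℕ) (P : k[X]), Irreducible P →
      Unramified (integralClosure k[X] (L i)) P ∨ (P ∣ m ∧ ∀ j, IrreducibleMod (f₁ j) P)) :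
    (∀ N : ℕ, (AllTuples k g N).Finite) ∧
    (∃ c : ℝ, 0 < c ∧ ∀ᶠ N : ℕ in atTop, 0 < (Tuples g m f₁ N).ncard ∧
      c * ((AllTuples k g N).ncard : ℝ) ≤ ((Tuples g m f₁ N).ncard : ℝ)) ∧
    ∀ w : ℕ → ℕ, Tendsto w atTop atTop → ∃ v : ℕ → ℕ, Tendsto v atTop atTop ∧
      Tendsto (fun N : ℕ =>
        ({f ∈ Tuples g m f₁ N | ∀ j, HasGoodTwist K (L (v N)) (w N) (f j)}.ncard : ℝ) /
          ((Tuples g m f₁ N).ncard : ℝ)) atTop (𝓝 1) := by
  have hall : ∀ g' N, Polynomials k g' N =
      {f : k[X][X] | Pool.Agent.H859.PJ.HtA g' (2 * N) f} := by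
    intro g' N
    ext f
    exact ⟨fun h => ⟨h.1, h.2.1, h.2.2⟩, fun h => ⟨h.mon, h.deg, h.ht⟩⟩
  have hfam : ∀ j N, Surfaces (g j) m (f₁ j) N =
      Pool.Agent.H859.AL.Fam (g j) N (m ^ 2) (f₁ j) := by
    intro j N
    ext f
    constructor
    · rintro ⟨h1, h2, h3, h4⟩
      exact ⟨⟨h1.1, h1.2.1, h1.2.2⟩, (Pool.Agent.H859.AL.irrInf_iff N f).2 h2,
        (Pool.Agent.H859.AL.sq_discr h1.1 h1.2.1).2 h3, h4⟩
    · rintro ⟨h1, h2, h3, h4⟩
      exact ⟨⟨h1.mon, h1.deg, h1.ht⟩, (Pool.Agent.H859.AL.irrInf_iff N f).1 h2,
        (Pool.Agent.H859.AL.sq_discr h1.mon h1.deg).1 h3, h4⟩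
  have hGM := fun j => Pool.Agent.H859.TWC.goodM_sq hm (hf₁ j) (hd₁ j) (hdisc j)
  have hfin : ∀ g' N, (Polynomials k g' N).Finite := fun g' N => by
    rw [hall]
    exact (Pool.Agent.H859.N415.PJMAIN.ht_card (k := k) g' (2 * N)).1
  have hfinF : ∀ j N, (Surfaces (g j) m (f₁ j) N).Finite := fun j N =>
    (hfin (g j) N).subset fun f hf => hf.1
  have hq : (0 : ℝ) < Nat.card k := by exact_mod_cast Nat.card_pos
  -- the density for each `j`
  have hpos : ∀ j, ∃ c : ℝ, 0 < c ∧ ∀ᶠ N : ℕ in atTop, 0 < (Surfaces (g j) m (f₁ j) N).ncard ∧
      c * ((Polynomials k (g j) N).ncard : ℝ) ≤ ((Surfaces (g j) m (f₁ j) N).ncard : ℝ) := by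
    intro j
    obtain ⟨c, hc, N₀, hN₀⟩ := Pool.Agent.H859.AL.fam_pos (hg j) hp (hGM j)
    refine ⟨c / (Nat.card k : ℝ) ^ (2 * g j + 1), by positivity, ?_⟩
    filter_upwards [eventually_ge_atTop N₀] with N hN
    obtain ⟨hF, hle⟩ := hN₀ N hN
    rw [hfam]
    have h1 : (0 : ℝ) < ((Pool.Agent.H859.AL.Fam (g j) N (m ^ 2) (f₁ j)).ncard : ℝ) :=
      lt_of_lt_of_le (by positivity) hle
    refine ⟨by exact_mod_cast h1, ?_⟩
    have h2 : ((Polynomials k (g j) N).ncard : ℝ) ≤
        (Nat.card k : ℝ) ^ (2 * N * Pool.Agent.H859.PJ.ddA (g j)) *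
          (Nat.card k : ℝ) ^ (2 * g j + 1) := by
      rw [hall, ← pow_add]
      exact_mod_cast (Pool.Agent.H859.N415.PJMAIN.ht_card (k := k) (g j) (2 * N)).2
    calc c / (Nat.card k : ℝ) ^ (2 * g j + 1) * ((Polynomials k (g j) N).ncard : ℝ)
        ≤ c / (Nat.card k : ℝ) ^ (2 * g j + 1) *
          ((Nat.card k : ℝ) ^ (2 * N * Pool.Agent.H859.PJ.ddA (g j)) *
            (Nat.card k : ℝ) ^ (2 * g j + 1)) := by gcongr
      _ = c * (Nat.card k : ℝ) ^ (2 * N * Pool.Agent.H859.PJ.ddA (g j)) := by field_simp
      _ ≤ _ := hle
  have hAll := fun N => Pool.Agent.H859.AL.ncard_tuples (fun j : Fin r => Polynomials k (g j) N)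
    fun j => hfin (g j) N
  have hTup := fun N => Pool.Agent.H859.AL.ncard_tuples
    (fun j : Fin r => Surfaces (g j) m (f₁ j) N) fun j => hfinF j N
  refine ⟨fun N => (hAll N).1, ?_, fun w hw => ?_⟩
  · choose c hc hcN using hpos
    refine ⟨∏ j, c j, Finset.prod_pos fun j _ => hc j, ?_⟩
    filter_upwards [eventually_all.2 hcN] with N hN
    have e1 : (Tuples g m f₁ N).ncard = ∏ j, (Surfaces (g j) m (f₁ j) N).ncard := (hTup N).2
    have e2 : (AllTuples k g N).ncard = ∏ j, (Polynomials k (g j) N).ncard := (hAll N).2
    rw [e1, e2]
    refine ⟨Finset.prod_pos fun j _ => (hN j).1, ?_⟩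
    rw [Nat.cast_prod, Nat.cast_prod, ← Finset.prod_mul_distrib]
    exact Finset.prod_le_prod (fun j _ => mul_nonneg (hc j).le (Nat.cast_nonneg _))
      fun j _ => (hN j).2
  -- the exceptional sets
  have hlev := fun j => Pool.Agent.H859.AL.level (hg j) hp K hm (hf₁ j) (hd₁ j) (hdisc j)
  choose C hC using hlev
  have hs : ∀ s : ℕ, ∀ᶠ N : ℕ in atTop, ∀ j : Fin r,
      ({f ∈ Surfaces (g j) m (f₁ j) N | ¬ HasGoodTwist K (L s) (w N) f}.ncard : ℝ) ≤
        C j * (1 - 1 / (32 * (g j))) ^ s * ((Surfaces (g j) m (f₁ j) N).ncard : ℝ) := by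
    intro s
    rw [eventually_all]
    intro j
    haveI := hL.finite s
    haveI := hL.galois s
    haveI : IsScalarTower k[X] K (L s) := IntermediateField.isScalarTower _
    obtain ⟨n, hn⟩ := hL.degree s
    have h1 := hC j (L s) n hn (fun P hP => by
      rcases hram s P hP with h | h
      · exact Or.inl h
      · exact Or.inr ⟨h.1, h.2 j⟩) w hw s
    filter_upwards [h1] with N hN
    rw [hfam]
    exact hN
  obtain ⟨v, hv, hvb⟩ := Pool.Agent.H859.AL.diag _ hs
  refine ⟨v, hv, ?_⟩
  refine Pool.Agent.H859.AL.tuples_one (fun j N => Surfaces (g j) m (f₁ j) N) hfinF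
    (fun j N f => HasGoodTwist K (L (v N)) (w N) f) fun j => ?_
  have hg' : (1 : ℝ) ≤ g j := by exact_mod_cast hg j
  have hρ1 : (1 : ℝ) / (32 * g j) ≤ 1 / 32 := by
    apply one_div_le_one_div_of_le (by norm_num)
    linarith
  have hρ2 : (0 : ℝ) < 1 / (32 * g j) := by positivity
  obtain ⟨c, hc, hcN⟩ := hpos j
  refine Pool.Agent.H859.AL.tends_one (C := |C j|) (ρ := 1 - 1 / (32 * g j)) _ (hfinF j)
    (hcN.mono fun N hN => hN.1) _ (by linarith) (by linarith) fun s => ?_
  filter_upwards [hvb, hv.eventually_ge_atTop s] with N hN hNs
  refine (hN j).trans ?_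
  have h1 : (1 - 1 / (32 * (g j : ℝ))) ^ v N ≤ (1 - 1 / (32 * (g j : ℝ))) ^ s :=
    pow_le_pow_of_le_one (by linarith) (by linarith) hNs
  have h2 : (0 : ℝ) ≤ (1 - 1 / (32 * (g j : ℝ))) ^ v N := pow_nonneg (by linarith) _
  have h3 : C j * (1 - 1 / (32 * (g j : ℝ))) ^ v N ≤ |C j| * (1 - 1 / (32 * (g j : ℝ))) ^ s :=
    mul_le_mul (le_abs_self (C j)) h1 h2 (abs_nonneg (C j))
  exact mul_le_mul_of_nonneg_right h3 (Nat.cast_nonneg _)

end Pool.Agent.Results.MP_89bcae_ag.FibreProductsInTowers
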