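import Pool.Agent.H854.HF.Div

/-!
# The Tate conjecture for divisors in characteristic `p` and the surfaces
`z + g(x, y, z) ^ p = 0` in the affine space of dimension three over `𝔽_p`

Let `p ≠ ℓ` be prime numbers. For a smooth variety `X` over a field `k` a class in
`H^2(X ⊗ k̄, ℚ̄_ℓ(1))` is a Tate class if it is invariant under the absolute Galois group of `k`, and
`T^1(X)` (`TateConj ℓ f 1`) says that each Tate class vanishes outside a divisor, i.e. on a non-empty
open subset; by semi-purity this means that it is a combination of classes of divisors.

For every polynomial `g` over a field `k` of characteristic `p` the hypersurface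
`z + g(x_1, ..., x_n, z) ^ p = 0` in the affine space of dimension `n + 1` is smooth, because its
derivative with respect to `z` is `1`. It is étale over the affine space of dimension `n`, and finite
if `g` is monic in `z`. The hypersurfaces `P = 0` with `IsComponent p P` are the irreducible
components of these hypersurfaces with `g` monic in `z`.

**Theorem.**
1. (no hypothesis) For every field `k` of characteristic `p` and every `n`: each smooth variety of
   dimension `n` over `k` has a non-empty open subset that is isomorphic over `k` to a component of a
   hypersurface `z + g(x_1, ..., x_n, z) ^ p = 0`, and the conjecture `T^1` for all smooth varieties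
   of dimension `n` over `k` is equivalent to `T^1` for these components.
2. (with the published theorems in `DivisorFacts`) The following are equivalent:
   * `T^1` for all smooth projective varieties over all finitely generated fields of
     characteristic `p`;
   * `T^1` for all smooth projective surfaces over all finitely generated fields of
     characteristic `p`, the question in characteristic `p`;
   * `T^1` for the components of the affine surfaces `z + g(x, y, z) ^ p = 0` over `𝔽_p`.

The cohomology is the `ℓ`-adic cohomology `EllAdicCohomology` of Mathlib, with the Galois action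
constructed in the module `Y135.Gal` of the library.
-/

open CategoryTheory AlgebraicGeometry Pool.Agent.Y135.RF

namespace Pool.Agent.Results.MP_89bcae_ag.SurfacesInThreeSpace

open Pool.Agent.H854.FE Pool.Agent.H854.HF

/-- `T^1` for the smooth projective varieties of dimension `n` over the field `K`. -/
def ProjectiveT1 (ℓ : ℕ) [Fact ℓ.Prime] (K : Type) [Field K] (n : ℕ) : Prop :=
  ∀ (X : Scheme.{0}) (f : X ⟶ Spec (.of K)) [IsVar n f], IsProjectiveMor f → TateConj ℓ f 1

/-- `T^1` for all smooth varieties of dimension `n` over the field `K`. -/
def SmoothT1 (ℓ : ℕ) [Fact ℓ.Prime] (K : Type) [Field K] (n : ℕ) : Prop :=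
  ∀ (X : Scheme.{0}) (f : X ⟶ Spec (.of K)) [IsVar n f], TateConj ℓ f 1

/-- Published theorems on the conjecture `T^1`. -/
structure DivisorFacts (p ℓ : ℕ) [Fact p.Prime] [Fact ℓ.Prime] : Prop where
  /-- De Jong, Morrow, and Ambrosi, Kahn for finitely generated fields: `T^1` for the smooth
  projective surfaces over the finite fields of characteristic `p` implies `T^1` for all smooth
  projective varieties over finitely generated fields of characteristic `p`. -/
  surfaces : (∀ (K : Type) [Field K] [CharP K p], Finite K → ProjectiveT1 ℓ K 2) →
    ∀ (K : Type) [Field K] [CharP K p] (n : ℕ), IsFG K → ProjectiveT1 ℓ K n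
  /-- A smooth projective surface `X` over a finite field `K` is also a surface over the prime
  field, and the two conjectures are equivalent (Shapiro's lemma). -/
  shapiro : SmoothT1 ℓ (ZMod p) 2 → ∀ (K : Type) [Field K] [CharP K p], Finite K → SmoothT1 ℓ K 2
  /-- Tate: `T^1` for smooth projective surfaces over the prime field implies `T^1` for their open
  subsets, and every smooth surface is an open subset of a smooth projective one. -/
  opens : ProjectiveT1 ℓ (ZMod p) 2 → SmoothT1 ℓ (ZMod p) 2

/-- **`T^1` in characteristic `p` is a question on the surfaces `z + g(x, y, z) ^ p = 0`.** -/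
theorem result (p ℓ : ℕ) [Fact p.Prime] [Fact ℓ.Prime] :
    (∀ (k : Type) [Field k] [CharP k p] (n : ℕ),
      (∀ (X : Scheme.{0}) (f : X ⟶ Spec (.of k)) [IsVar n f],
        ∃ P : Polynomial (MvPolynomial (Fin n) k), IsComponent p P ∧ HasOpenSubset f P) ∧
      (∀ P : Polynomial (MvPolynomial (Fin n) k), IsComponent p P → IsVar n (hypStr k n P)) ∧
      ((∀ P : Polynomial (MvPolynomial (Fin n) k), IsComponent p P →
        TateConj ℓ (hypStr k n P) 1) ↔ SmoothT1 ℓ k n)) ∧
    (DivisorFacts p ℓ → List.TFAE [
      ∀ (K : Type) [Field K] [CharP K p] (n : ℕ), IsFG K → ProjectiveT1 ℓ K n,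
      ∀ (K : Type) [Field K] [CharP K p], IsFG K → ProjectiveT1 ℓ K 2,
      ∀ P : Polynomial (MvPolynomial (Fin 2) (ZMod p)), IsComponent p P →
        TateConj ℓ (hypStr (ZMod p) 2 P) 1]) := by
  refine ⟨fun k _ _ n => ⟨fun X f _ => exists_component p f, fun P hP => hP.isVar,
    divisors_iff k n⟩, fun F => ?_⟩
  tfae_have 1 → 2 := fun h K _ _ hK => h K 2 hK
  tfae_have 2 → 3 := fun h =>
    (divisors_iff (ZMod p) 2).mpr (F.opens (h (ZMod p) (isFG_zmod p)))
  tfae_have 3 → 1 := by
    intro h
    have h1 : SmoothT1 ℓ (ZMod p) 2 := (divisors_iff (ZMod p) 2).mp h
    exact F.surfaces fun K _ _ hK X f _ _ => F.shapiro h1 K hK X f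
  tfae_finish

end Pool.Agent.Results.MP_89bcae_ag.SurfacesInThreeSpace
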