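import Pool.Agent.H850.RG.Diag
import Pool.Agent.H850.LA.Nrm

/-!
# MP_89bcae_ag: the Tate conjecture over extensions in which a place splits completely

`F` is a number field. We prove that there is a set of primes of `F` of natural density one such
that, for countably many varieties over `F` and primes `ℓ` simultaneously and all but finitely many
primes `v` in this set, the semisimplicity of the cohomology and the Tate conjecture over `F` are
equivalent to the same statements over any Galois extension `K` of `F` in which `v` splits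
completely, for example over the (infinite) field of totally `v`-adic numbers. Moreover, if the
cohomology is semisimple, the Lie algebra of the image of the Galois group of `K` contains the derived
algebra of the Lie algebra of the image of the Galois group of `F`, and the image of the Galois group
of `K` is OPEN in that of `F` if the latter Lie algebra is perfect.
-/

set_option autoImplicit false
set_option linter.unusedSectionVars false

namespace Pool.Agent.Results.MP_89bcae_ag.TotallyAdicNumbers

open NumberField Filter Topology IsDedekindDomain MeasureTheory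
open Pool.Agent.W401.Cheb (GK IsFrob dens)

/-- A matrix over `ℤ_ℓ` viewed over `ℚ_ℓ`. -/
noncomputable def rat {ℓ : ℕ} [Fact ℓ.Prime] {N : ℕ} (g : GL (Fin N) ℤ_[ℓ]) :
    Matrix (Fin N) (Fin N) ℚ_[ℓ] :=
  (g : Matrix (Fin N) (Fin N) ℤ_[ℓ]).map (algebraMap ℤ_[ℓ] ℚ_[ℓ])

/-- A set of matrices acts semisimply: every stable subspace has a stable complement. -/
def Semisimple {ℓ : ℕ} [Fact ℓ.Prime] {N : ℕ} (S : Set (Matrix (Fin N) (Fin N) ℚ_[ℓ])) : Prop :=
  ∀ W : Submodule ℚ_[ℓ] (Fin N → ℚ_[ℓ]), (∀ A ∈ S, ∀ x ∈ W, A.mulVec x ∈ W) →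
    ∃ W' : Submodule ℚ_[ℓ] (Fin N → ℚ_[ℓ]), (∀ A ∈ S, ∀ x ∈ W', A.mulVec x ∈ W') ∧ IsCompl W W'

/-- The `ℓ`-adic cycle class map of a smooth projective variety `X` over `F` in one codimension:
the continuous action `ρ` of the Galois group on a lattice `ℤ_ℓ ^ N` of the twisted cohomology
`V = ℚ_ℓ ^ N` (for divisors `V = H²(X, ℚ_ℓ(1))`), the group `C` of cycle classes over the
algebraic closure (for divisors the Neron-Severi group), on which Galois acts with open
stabilisers, and the equivariant cycle class map. -/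
structure CycleMap (F : Type) [Field F] where
  ℓ : ℕ
  [prime : Fact ℓ.Prime]
  N : ℕ
  ρ : GK F →* GL (Fin N) ℤ_[ℓ]
  cont : Continuous fun σ => (ρ σ : Matrix (Fin N) (Fin N) ℤ_[ℓ])
  C : Type
  [group : AddCommGroup C]
  [galois : DistribMulAction (GK F) C]
  isOpen_stabilizer : ∀ c : C, IsOpen (MulAction.stabilizer (GK F) c : Set (GK F))
  cl : C →+ (Fin N → ℚ_[ℓ])
  equivariant : ∀ (σ : GK F) (c : C), (rat (ρ σ)).mulVec (cl c) = cl (σ • c)

attribute [instance] CycleMap.prime CycleMap.group CycleMap.galois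

variable {F : Type} [Field F]

namespace CycleMap

variable (X : CycleMap F)

/-- The cohomology group `V`. -/
abbrev V : Type := Fin X.N → ℚ_[X.ℓ]

/-- The action of a Galois element on `V`. -/
noncomputable def act (σ : GK F) (v : X.V) : X.V := (rat (X.ρ σ)).mulVec v

/-- The span of all cycle classes (over the algebraic closure). -/
noncomputable def Alg : Submodule ℚ_[X.ℓ] X.V := Submodule.span ℚ_[X.ℓ] (Set.range X.cl)

/-- The span of the classes of the cycles fixed by the Galois group of `L`. -/
noncomputable def AlgOver (L : IntermediateField F (AlgebraicClosure F)) : Submodule ℚ_[X.ℓ] X.V :=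
  Submodule.span ℚ_[X.ℓ] (X.cl '' {c | ∀ σ ∈ L.fixingSubgroup, σ • c = c})

/-- The class `v` is fixed by the Galois group of `L`. -/
def FixedOver (L : IntermediateField F (AlgebraicClosure F)) (v : X.V) : Prop :=
  ∀ σ ∈ L.fixingSubgroup, X.act σ v = v

/-- The Tate conjecture over `L`: the classes fixed by the Galois group of `L` are
`ℚ_ℓ`-combinations of classes of cycles fixed by the Galois group of `L`. -/
def TateOver (L : IntermediateField F (AlgebraicClosure F)) : Prop :=
  ∀ v, X.FixedOver L v → v ∈ X.AlgOver L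

/-- The Tate conjecture over all finite extensions `K F'` of `K`, `F'` finite over `F`. -/
def TateAbove (K : IntermediateField F (AlgebraicClosure F)) : Prop :=
  ∀ F' : IntermediateField F (AlgebraicClosure F), FiniteDimensional F F' → X.TateOver (K ⊔ F')

/-- `V` is a semisimple representation of the Galois group of `L`. -/
def SemisimpleOver (L : IntermediateField F (AlgebraicClosure F)) : Prop :=
  Semisimple ((fun σ => rat (X.ρ σ)) '' (L.fixingSubgroup : Set (GK F)))

/-- The quotient `V / Alg` (for divisors `V_ℓ(Br)` of the geometric Brauer group) has no nonzero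
invariants under the Galois group of `L`. -/
def NoTranscendental (L : IntermediateField F (AlgebraicClosure F)) : Prop :=
  ∀ v : X.V, (∀ σ ∈ L.fixingSubgroup, X.act σ v - v ∈ X.Alg) → v ∈ X.Alg

/-- The quotient `V / Alg` has no nonzero invariants over any finite extension `K F'` of `K`. -/
def NoTranscendentalAbove (K : IntermediateField F (AlgebraicClosure F)) : Prop :=
  ∀ F' : IntermediateField F (AlgebraicClosure F), FiniteDimensional F F' →
    X.NoTranscendental (K ⊔ F')

/-- `v` is fixed by the Galois group of some finite extension `K F'` of `K`. -/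
def TateClassAbove (K : IntermediateField F (AlgebraicClosure F)) (v : X.V) : Prop :=
  ∃ F' : IntermediateField F (AlgebraicClosure F), FiniteDimensional F F' ∧
    X.FixedOver (K ⊔ F') v

/-- The square matrices over `ℚ_ℓ`. -/
abbrev Mat : Type := Matrix (Fin X.N) (Fin X.N) ℚ_[X.ℓ]

/-- The matrix `(ρ (σ) - 1) / ℓ ^ m`. -/
noncomputable def quot (m : ℕ) (σ : GK F) : X.Mat :=
  ((X.ℓ : ℚ_[X.ℓ]) ^ m)⁻¹ • (rat (X.ρ σ) - 1)

/-- The matrix `A` belongs to the Lie algebra of the image of the Galois group of `L`: it is a limit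
of `(ρ (σ_m) - 1) / ℓ ^ m` with `σ_m` in this group. -/
def InLie (L : IntermediateField F (AlgebraicClosure F)) (A : X.Mat) : Prop :=
  ∃ σ : ℕ → GK F, (∀ m, σ m ∈ L.fixingSubgroup) ∧
    Tendsto (fun m : ℕ => X.quot m (σ m)) atTop (𝓝 A)

/-- The bracket of two matrices. -/
noncomputable def bracket (A B : X.Mat) : X.Mat := A * B - B * A

/-- The Lie algebra of the image of the Galois group of `L` contains all brackets of the Lie algebra
of the image of the Galois group of `F`. -/
def ContainsBrackets (L : IntermediateField F (AlgebraicClosure F)) : Prop :=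
  ∀ A B, X.InLie ⊥ A → X.InLie ⊥ B → X.InLie L (X.bracket A B)

/-- The brackets of the elements of the Lie algebra of the image of the Galois group of `F`. -/
def brackets : Set X.Mat := {D | ∃ B C, X.InLie ⊥ B ∧ X.InLie ⊥ C ∧ D = X.bracket B C}

/-- The Lie algebra of the image of the Galois group of `F` is perfect: it is spanned by its
brackets. -/
def Perfect : Prop := ∀ A, X.InLie ⊥ A → A ∈ Submodule.span ℚ_[X.ℓ] X.brackets

/-- The image of the Galois group of `L` is open in the image of the Galois group of `F`: it contains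
the image of the Galois group of a finite extension of `F`. -/
def OpenImage (L : IntermediateField F (AlgebraicClosure F)) : Prop :=
  ∃ F' : IntermediateField F (AlgebraicClosure F), FiniteDimensional F F' ∧
    ∀ σ ∈ F'.fixingSubgroup, ∃ τ ∈ L.fixingSubgroup, X.ρ τ = X.ρ σ

/-- Semisimplicity, potentially fixed classes and the Tate conjecture are the same over `K` and
over `F`:
(1) `V` is semisimple over `K` if and only if it is semisimple over `F`;
(2) if it is, the classes fixed over a finite extension of `K` are those fixed over a finite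
extension of `F`;
(3) semisimplicity and the Tate conjecture over all finite extensions of `F` hold if and only if
they hold over `K` and its finite extensions;
(4) if `V` is semisimple, the Tate conjecture over all finite extensions of `F` holds if and only
if `V / Alg` has no invariants over any finite extension of `K`;
(5) if `V` is semisimple, the Lie algebra of the image of the Galois group of `K` contains all
brackets of the Lie algebra of the image of the Galois group of `F`;
(6) if `V` is semisimple and the latter Lie algebra is perfect, the image of the Galois group of `K`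
is open in the image of the Galois group of `F`. -/
def Transfer (K : IntermediateField F (AlgebraicClosure F)) : Prop :=
  (X.SemisimpleOver K ↔ X.SemisimpleOver ⊥) ∧
  (X.SemisimpleOver ⊥ → ∀ v, X.TateClassAbove K v ↔ X.TateClassAbove ⊥ v) ∧
  ((X.SemisimpleOver K ∧ X.TateAbove K) ↔ (X.SemisimpleOver ⊥ ∧ X.TateAbove ⊥)) ∧
  (X.SemisimpleOver ⊥ → (X.TateAbove ⊥ ↔ X.NoTranscendentalAbove K)) ∧
  (X.SemisimpleOver ⊥ → X.ContainsBrackets K) ∧
  (X.SemisimpleOver ⊥ → X.Perfect → X.OpenImage K)

end CycleMap

/-- `σ` lies in the decomposition group of some maximal ideal `Q` above `v` of the ring of all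
algebraic integers. -/
def InDecomposition [NumberField F] (v : HeightOneSpectrum (𝓞 F)) (σ : GK F) : Prop :=
  ∃ Q : Ideal (𝓞 (AlgebraicClosure F)), Q.IsMaximal ∧
    Q.comap (algebraMap (𝓞 F) (𝓞 (AlgebraicClosure F))) = v.asIdeal ∧ ∀ x ∈ Q, σ • x ∈ Q

/-- `v` splits completely in `K`: all decomposition groups above `v` act trivially on `K`. -/
def SplitsCompletely [NumberField F] (v : HeightOneSpectrum (𝓞 F))
    (K : IntermediateField F (AlgebraicClosure F)) : Prop :=
  ∀ σ, InDecomposition v σ → ∀ y ∈ K, σ y = y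

/-- The field of totally `v`-adic numbers: the fixed field of the subgroup generated by all
decomposition groups above `v`. -/
noncomputable def totallyAdic [NumberField F] (v : HeightOneSpectrum (𝓞 F)) :
    IntermediateField F (AlgebraicClosure F) :=
  IntermediateField.fixedField (Subgroup.closure {σ | InDecomposition v σ})

section Proofs

variable [NumberField F]

open Pool.Agent.H850.TF Pool.Agent.H850.RG

theorem rat_eq (X : CycleMap F) (σ : GK F) :
    rat (X.ρ σ) = Pool.Agent.H850.TF.rat X.ρ σ := rfl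

theorem exists_field {U : Subgroup (GK F)} (hU : IsOpen (U : Set (GK F))) :
    ∃ L : IntermediateField F (AlgebraicClosure F), FiniteDimensional F L ∧
      L.fixingSubgroup ≤ U := by
  have h1 : (U : Set (GK F)) ∈ 𝓝 (1 : (GK F)) := hU.mem_nhds U.one_mem
  rw [krullTopology_mem_nhds_one_iff] at h1
  exact h1

theorem semisimple_iff (X : CycleMap F) (L : IntermediateField F (AlgebraicClosure F)) :
    X.SemisimpleOver L ↔ SS (stdr X.ρ) (L.fixingSubgroup : Set (GK F)) := by
  have h1 : ∀ W : Submodule ℚ_[X.ℓ] X.V,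
      (∀ A ∈ (fun σ => rat (X.ρ σ)) '' (L.fixingSubgroup : Set (GK F)), ∀ x ∈ W,
        A.mulVec x ∈ W) ↔ ∀ σ ∈ (L.fixingSubgroup : Set (GK F)), ∀ x ∈ W,
          stdr X.ρ σ x ∈ W := by
    intro W
    constructor
    · intro h σ hσ x hx
      exact h _ ⟨σ, hσ, rfl⟩ x hx
    · rintro h _ ⟨σ, hσ, rfl⟩ x hx
      exact h σ hσ x hx
  unfold CycleMap.SemisimpleOver Semisimple SS
  simp only [h1]

theorem semisimple_bot (X : CycleMap F) :
    X.SemisimpleOver ⊥ ↔ SS (stdr X.ρ) Set.univ := by
  rw [semisimple_iff, IntermediateField.fixingSubgroup_bot, Subgroup.coe_top]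

/-- descent of combinations of cycle classes -/
theorem descent (X : CycleMap F) {v : X.V} (hv : v ∈ X.Alg)
    (L : IntermediateField F (AlgebraicClosure F)) (hL : X.FixedOver L v) :
    v ∈ X.AlgOver L := by
  classical
  change v ∈ Submodule.span ℚ_[X.ℓ] (X.cl '' {c | ∀ σ ∈ L.fixingSubgroup, σ • c = c})
  set H := L.fixingSubgroup with hH
  rw [CycleMap.Alg, Finsupp.mem_span_range_iff_exists_finsupp] at hv
  obtain ⟨c, hc⟩ := hv
  set U : Subgroup (GK F) := ⨅ e : c.support, MulAction.stabilizer (GK F) (e : X.C) with hU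
  have hUopen : IsOpen (U : Set (GK F)) := by
    rw [hU, Subgroup.coe_iInf]
    exact isOpen_iInter_of_finite fun e => X.isOpen_stabilizer e
  have hUfix : ∀ e ∈ c.support, ∀ u ∈ U, u • e = e := by
    intro e he u hu
    rw [hU, Subgroup.mem_iInf] at hu
    exact hu ⟨e, he⟩
  have hfin : Finite ((GK F) ⧸ U) := Subgroup.quotient_finite_of_isOpen U hUopen
  have hidx : U.FiniteIndex := Subgroup.finiteIndex_of_finite_quotient
  have hfinQ : Finite (H ⧸ U.subgroupOf H) := inferInstance
  have : Fintype (H ⧸ U.subgroupOf H) := Fintype.ofFinite _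
  set n : ℕ := Fintype.card (H ⧸ U.subgroupOf H) with hn
  have hn0 : n ≠ 0 := Fintype.card_ne_zero
  let av : X.C → X.C := fun e => ∑ q : H ⧸ U.subgroupOf H, (q.out : (GK F)) • e
  have hav : ∀ e ∈ c.support, ∀ σ ∈ H, σ • av e = av e := by
    intro e he σ hσ
    change σ • (∑ q : H ⧸ U.subgroupOf H, (q.out : (GK F)) • e) =
      ∑ q : H ⧸ U.subgroupOf H, (q.out : (GK F)) • e
    rw [Finset.smul_sum]
    have h2 : ∀ q : H ⧸ U.subgroupOf H, σ • (q.out : (GK F)) • e =
        (((⟨σ, hσ⟩ : H) • q).out : (GK F)) • e := by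
      intro q
      have h3 : ((⟨σ, hσ⟩ : H) * q.out : H)⁻¹ * ((⟨σ, hσ⟩ : H) • q).out ∈ U.subgroupOf H := by
        rw [← QuotientGroup.eq, QuotientGroup.out_eq']
        have h4 : (q : H ⧸ U.subgroupOf H) = QuotientGroup.mk q.out := (QuotientGroup.out_eq' q).symm
        conv_rhs => rw [h4]
        rfl
      have h5 := hUfix e he _ (Subgroup.mem_subgroupOf.1 h3)
      have h6 : (((⟨σ, hσ⟩ : H) • q).out : (GK F)) = (σ * (q.out : (GK F))) *
          ((((⟨σ, hσ⟩ : H) * q.out : H)⁻¹ * ((⟨σ, hσ⟩ : H) • q).out : H) : (GK F)) := by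
        push_cast
        group
      rw [h6, mul_smul, h5, mul_smul]
    simp_rw [h2]
    exact Equiv.sum_comp (MulAction.toPerm (⟨σ, hσ⟩ : H)) fun q : H ⧸ U.subgroupOf H =>
      (q.out : (GK F)) • e
  have hconj : ∀ σ ∈ H, v = c.sum fun e a => a • X.cl (σ • e) := by
    intro σ hσ
    have h1 : (rat (X.ρ σ)).mulVec v = c.sum fun e a => a • X.cl (σ • e) := by
      have h2 : (rat (X.ρ σ)).mulVec v = (rat (X.ρ σ)).mulVecLin v := rfl
      rw [h2, ← hc, Finsupp.sum, map_sum, Finsupp.sum]
      refine Finset.sum_congr rfl fun e _ => ?_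
      rw [map_smul, Matrix.mulVecLin_apply, X.equivariant]
    rw [← h1]
    exact (hL σ hσ).symm
  have hn0' : (n : ℚ_[X.ℓ]) ≠ 0 := by exact_mod_cast hn0
  have hX2 : v = (n : ℚ_[X.ℓ])⁻¹ • ∑ q : H ⧸ U.subgroupOf H, v := by
    rw [Finset.sum_const, Finset.card_univ, ← hn, ← Nat.cast_smul_eq_nsmul ℚ_[X.ℓ], smul_smul,
      inv_mul_cancel₀ hn0', one_smul]
  have hX3 : v = ∑ e ∈ c.support, ((n : ℚ_[X.ℓ])⁻¹ * c e) • X.cl (av e) := by
    rw [hX2]
    have h4 : ∑ q : H ⧸ U.subgroupOf H, v =
        ∑ q : H ⧸ U.subgroupOf H, c.sum fun e a => a • X.cl ((q.out : (GK F)) • e) :=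
      Finset.sum_congr rfl fun q _ => hconj _ q.out.2
    rw [h4]
    simp only [Finsupp.sum]
    rw [Finset.sum_comm, Finset.smul_sum]
    refine Finset.sum_congr rfl fun e _ => ?_
    rw [← Finset.smul_sum, smul_smul, ← map_sum]
  rw [hX3]
  refine Submodule.sum_mem _ fun e he => Submodule.smul_mem _ _ (Submodule.subset_span ?_)
  exact ⟨av e, hav e he, rfl⟩

theorem stable_alg (X : CycleMap F) (σ : GK F) {v : X.V} (hv : v ∈ X.Alg) :
    X.act σ v ∈ X.Alg := by
  change (rat (X.ρ σ)).mulVecLin v ∈ X.Alg
  unfold CycleMap.Alg at hv ⊢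
  induction hv using Submodule.span_induction with
  | mem x hx =>
    obtain ⟨c, rfl⟩ := hx
    rw [Matrix.mulVecLin_apply, X.equivariant]
    exact Submodule.subset_span ⟨_, rfl⟩
  | zero => rw [map_zero]; exact Submodule.zero_mem _
  | add x y _ _ h h' => rw [map_add]; exact Submodule.add_mem _ h h'
  | smul a x _ h => rw [map_smul]; exact Submodule.smul_mem _ _ h

theorem algOver_le (X : CycleMap F) (L : IntermediateField F (AlgebraicClosure F)) : X.AlgOver L ≤ X.Alg :=
  Submodule.span_mono (Set.image_subset_range _ _)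

theorem act_add (X : CycleMap F) (σ : GK F) (a b : X.V) :
    X.act σ (a + b) = X.act σ a + X.act σ b := Matrix.mulVec_add _ _ _

theorem noTrans_iff (X : CycleMap F) (hss : X.SemisimpleOver ⊥)
    (L : IntermediateField F (AlgebraicClosure F)) : X.TateOver L ↔ X.NoTranscendental L := by
  constructor
  · intro hT v hv
    obtain ⟨W', hW', hc⟩ := (semisimple_bot X).1 hss X.Alg fun σ _ x hx => stable_alg X σ hx
    have h1 : v ∈ X.Alg ⊔ W' := by rw [hc.sup_eq_top]; trivial
    obtain ⟨a, ha, w, hw, rfl⟩ := Submodule.mem_sup.1 h1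
    refine Submodule.add_mem _ ha ?_
    have h2 : X.FixedOver L w := by
      intro σ hσ
      have h3 := hv σ hσ
      have h4 : X.act σ (a + w) - (a + w) = (X.act σ a - a) + (X.act σ w - w) := by
        rw [act_add]
        abel
      rw [h4] at h3
      have h5 : X.act σ w - w ∈ X.Alg := by
        have h6 := Submodule.sub_mem _ h3 (Submodule.sub_mem _ (stable_alg X σ ha) ha)
        rwa [add_sub_cancel_left] at h6
      have h7 : X.act σ w - w ∈ W' := Submodule.sub_mem _ (hW' σ trivial w hw) hw
      exact sub_eq_zero.1 ((Submodule.disjoint_def.1 hc.disjoint) _ h5 h7)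
    exact algOver_le X L (hT w h2)
  · intro hN v hv
    refine descent X (hN v fun σ hσ => ?_) L hv
    rw [hv σ hσ, sub_self]
    exact Submodule.zero_mem _

theorem inDecomposition_conj {v : HeightOneSpectrum (𝓞 F)} {σ : GK F} (h : InDecomposition v σ)
    (τ : GK F) : InDecomposition v (τ * σ * τ⁻¹) := by
  obtain ⟨Q, hQ, hQv, hσ⟩ := h
  let f : 𝓞 (AlgebraicClosure F) ≃+* 𝓞 (AlgebraicClosure F) :=
    MulSemiringAction.toRingEquiv (GK F) (𝓞 (AlgebraicClosure F)) τ⁻¹
  have hf : ∀ x, f x = τ⁻¹ • x := fun x => rfl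
  refine ⟨Q.comap f, Ideal.comap_isMaximal_of_surjective f f.surjective, ?_, ?_⟩
  · rw [← hQv]
    ext a
    simp only [Ideal.mem_comap]
    rw [hf, smul_algebraMap]
  · intro x hx
    rw [Ideal.mem_comap, hf] at hx ⊢
    have h1 : τ⁻¹ • ((τ * σ * τ⁻¹) • x) = σ • (τ⁻¹ • x) := by
      rw [← mul_smul, ← mul_smul]
      congr 1
      group
    rw [h1]
    exact hσ _ hx

theorem inDecomposition_of_isFrob {v : HeightOneSpectrum (𝓞 F)} {σ : GK F} (h : IsFrob v σ) :
    InDecomposition v σ := by
  obtain ⟨Q, hQ, hQv, hσ⟩ := h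
  refine ⟨Q, hQ, hQv, fun x hx => ?_⟩
  have h1 : x ^ Ideal.absNorm v.asIdeal ∈ Q := by
    refine Ideal.pow_mem_of_mem Q hx _ (Nat.pos_of_ne_zero ?_)
    intro h0
    exact v.ne_bot (Ideal.absNorm_eq_zero_iff.1 h0)
  have h2 := Q.add_mem (hσ x) h1
  rwa [sub_add_cancel] at h2

instance normal_closure (v : HeightOneSpectrum (𝓞 F)) :
    (Subgroup.closure {σ : GK F | InDecomposition v σ}).Normal := by
  refine ⟨fun n hn g => ?_⟩
  induction hn using Subgroup.closure_induction with
  | mem x hx => exact Subgroup.subset_closure (inDecomposition_conj hx g)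
  | one =>
    rw [mul_one, mul_inv_cancel]
    exact Subgroup.one_mem _
  | mul x y _ _ hx hy =>
    have h1 : g * (x * y) * g⁻¹ = (g * x * g⁻¹) * (g * y * g⁻¹) := by group
    rw [h1]
    exact Subgroup.mul_mem _ hx hy
  | inv x _ hx =>
    have h1 : g * x⁻¹ * g⁻¹ = (g * x * g⁻¹)⁻¹ := by group
    rw [h1]
    exact Subgroup.inv_mem _ hx

theorem normal_fixed (N : Subgroup (GK F)) [hN : N.Normal] :
    (IntermediateField.fixedField N).fixingSubgroup.Normal := by
  refine ⟨fun h hh g => ?_⟩
  rw [IntermediateField.mem_fixingSubgroup_iff] at hh ⊢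
  intro x hx
  have h1 : g⁻¹ x ∈ IntermediateField.fixedField N := by
    rw [IntermediateField.mem_fixedField_iff] at hx ⊢
    intro n hn
    have h2 : g * n * g⁻¹ ∈ N := hN.conj_mem n hn g
    have h3 := hx _ h2
    have h4 := congrArg (fun y => g⁻¹ y) h3
    simp only [AlgEquiv.mul_apply] at h4
    have h5 : ∀ y, g⁻¹ (g y) = y := fun y => g.symm_apply_apply y
    rw [h5] at h4
    exact h4
  have h2 := hh _ h1
  simp only [AlgEquiv.mul_apply]
  rw [h2]
  exact g.apply_symm_apply x

theorem isGalois_totallyAdic (v : HeightOneSpectrum (𝓞 F)) : IsGalois F (totallyAdic v) :=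
  (InfiniteGalois.normal_iff_isGalois _).1 (normal_fixed _)

theorem splits_iff (v : HeightOneSpectrum (𝓞 F))
    (K : IntermediateField F (AlgebraicClosure F)) :
    SplitsCompletely v K ↔ K ≤ totallyAdic v := by
  rw [totallyAdic, IntermediateField.le_iff_le, Subgroup.closure_le]
  constructor
  · intro h σ hσ
    exact (IntermediateField.mem_fixingSubgroup_iff _ _).2 (h σ hσ)
  · intro h σ hσ
    exact (IntermediateField.mem_fixingSubgroup_iff _ _).1 (h hσ)

theorem inLie_iff (X : CycleMap F) (L : IntermediateField F (AlgebraicClosure F))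
    (A : Matrix (Fin X.N) (Fin X.N) ℚ_[X.ℓ]) :
    X.InLie L A ↔ A ∈ Pool.Agent.H850.LA.tanH X.ρ L.fixingSubgroup :=
  (Pool.Agent.H850.LA.mem_tanH X.ρ _ A).symm

theorem inLie_bot_iff (X : CycleMap F) (A : Matrix (Fin X.N) (Fin X.N) ℚ_[X.ℓ]) :
    X.InLie ⊥ A ↔ A ∈ Pool.Agent.H850.LA.tanH X.ρ (⊤ : Subgroup (GK F)) := by
  rw [inLie_iff, IntermediateField.fixingSubgroup_bot]

/-- the image is open if the Lie algebra is perfect -/
theorem open_image (X : CycleMap F) (L : IntermediateField F (AlgebraicClosure F))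
    (hbr : X.ContainsBrackets L) (hP : X.Perfect) : X.OpenImage L := by
  obtain ⟨V, hV, h1⟩ := Pool.Agent.H850.LA.open_of_brackets (ρ := X.ρ) X.cont
    (H := L.fixingSubgroup)
    (fun A hA B hB => (inLie_iff X L _).1
      (hbr A B ((inLie_bot_iff X A).2 hA) ((inLie_bot_iff X B).2 hB)))
    (fun A hA => by
      have h2 := hP A ((inLie_bot_iff X A).2 hA)
      unfold Pool.Agent.H850.LA.brk
      refine Submodule.span_mono ?_ h2
      rintro _ ⟨B, C, hB, hC, rfl⟩
      exact ⟨B, (inLie_bot_iff X B).1 hB, C, (inLie_bot_iff X C).1 hC, rfl⟩)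
  obtain ⟨F', hF', hle⟩ := exists_field hV
  have hcont : Continuous fun σ : GK F => Pool.Agent.H850.TF.rat X.ρ σ :=
    (Pool.Agent.H850.TF.continuous_toQ).comp X.cont
  have hcomp : IsCompact (Pool.Agent.H850.TF.rat X.ρ ''
      (L.fixingSubgroup : Set (GK F))) :=
    ((InfiniteGalois.fixingSubgroup_isClosed L).isCompact).image hcont
  refine ⟨F', hF', fun σ hσ => ?_⟩
  have h3 := h1 σ (hle hσ)
  rw [hcomp.isClosed.closure_eq] at h3
  obtain ⟨τ, hτ, hτσ⟩ := h3
  refine ⟨τ, hτ, ?_⟩
  apply Units.ext
  have h4 : Function.Injective (fun A : Matrix (Fin X.N) (Fin X.N) ℤ_[X.ℓ] =>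
      A.map (algebraMap ℤ_[X.ℓ] ℚ_[X.ℓ])) :=
    Matrix.map_injective (IsFractionRing.injective ℤ_[X.ℓ] ℚ_[X.ℓ])
  exact h4 hτσ

theorem CR_of_semisimpleOver (X : CycleMap F) (h : X.SemisimpleOver ⊥) :
    Pool.Agent.H850.TF.CR (Set.range (Pool.Agent.H850.TF.rat X.ρ)) := by
  intro W hW
  obtain ⟨W', hW', hc⟩ := h W (by
    rintro _ ⟨σ, _, rfl⟩ x hx
    exact hW _ ⟨σ, rfl⟩ x hx)
  refine ⟨W', ?_, hc⟩
  rintro _ ⟨σ, rfl⟩ x hx
  refine hW' _ ⟨σ, ?_, rfl⟩ x hx
  rw [IntermediateField.fixingSubgroup_bot]
  trivial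

/-- the transfer principle for one good Galois element -/
theorem transfer (X : CycleMap F) (σ : GK F)
    (h0 : Pool.Agent.H850.TF.CR (Set.range (Pool.Agent.H850.TF.rat X.ρ)) →
      ∀ A ∈ Pool.Agent.H850.LA.tanH X.ρ (⊤ : Subgroup (GK F)),
        ∀ B ∈ Pool.Agent.H850.LA.tanH X.ρ (⊤ : Subgroup (GK F)),
          A * B - B * A ∈ Pool.Agent.H850.LA.tanH X.ρ (Subgroup.normalClosure {σ}))
    (h1 : SS (stdr X.ρ) (Subgroup.normalClosure {σ} : Set (GK F)) → SS (stdr X.ρ) Set.univ)
    (h2 : SS (stdr X.ρ) Set.univ → ∀ V : Subgroup (GK F), IsOpen (V : Set (GK F)) → ∀ x,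
        (∀ t ∈ Subgroup.normalClosure {σ}, t ∈ V → stdr X.ρ t x = x) →
          ∀ u ∈ U1 X.ρ, stdr X.ρ u x = x)
    (K : IntermediateField F (AlgebraicClosure F)) (hK : IsGalois F K)
    (hσK : ∀ y ∈ K, σ y = y) : X.Transfer K := by
  have hKn : K.fixingSubgroup.Normal := (InfiniteGalois.normal_iff_isGalois K).2 hK
  have hle : Subgroup.normalClosure {σ} ≤ K.fixingSubgroup := by
    apply Subgroup.normalClosure_le_normal
    rw [Set.singleton_subset_iff]
    exact (IntermediateField.mem_fixingSubgroup_iff _ _).2 hσK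
  have hN : (Subgroup.normalClosure {σ} : Subgroup (GK F)).Normal :=
    Subgroup.normalClosure_normal
  have hS : X.SemisimpleOver K ↔ X.SemisimpleOver ⊥ := by
    rw [semisimple_bot, semisimple_iff]
    constructor
    · intro h
      exact h1 (h.clifford' hle)
    · intro h
      exact h.clifford _
  have hF : X.SemisimpleOver ⊥ → ∀ F' : IntermediateField F (AlgebraicClosure F),
      FiniteDimensional F F' → ∀ v, X.FixedOver (K ⊔ F') v →
        ∃ F'' : IntermediateField F (AlgebraicClosure F),
          FiniteDimensional F F'' ∧ X.FixedOver F'' v := by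
    intro hss F' hF' v hv
    obtain ⟨F'', hF'', hle'⟩ := exists_field (Pool.Agent.H850.TF.isOpen_U1 X.ρ X.cont)
    refine ⟨F'', hF'', fun τ hτ => ?_⟩
    refine h2 ((semisimple_bot X).1 hss) F'.fixingSubgroup F'.fixingSubgroup_isOpen v ?_ τ
      (hle' hτ)
    intro t ht htF
    refine hv t ?_
    rw [IntermediateField.fixingSubgroup_sup]
    exact ⟨hle ht, htF⟩
  have hup : X.SemisimpleOver ⊥ → X.TateAbove ⊥ → X.TateAbove K := by
    intro hss hT F' hF' v hv
    obtain ⟨F'', hF'', hv''⟩ := hF hss F' hF' v hv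
    refine descent X ?_ _ hv
    have h3 := hT F'' hF'' v (by rwa [bot_sup_eq])
    exact algOver_le _ _ h3
  have hdown : X.TateAbove K → X.TateAbove ⊥ := by
    intro hT F' hF' v hv
    refine descent X ?_ _ hv
    have h3 := hT F' hF' v (by
      intro τ hτ
      refine hv τ ?_
      rw [bot_sup_eq]
      rw [IntermediateField.fixingSubgroup_sup] at hτ
      exact hτ.2)
    exact algOver_le _ _ h3
  have hbr : X.SemisimpleOver ⊥ → X.ContainsBrackets K := by
    intro hss A B hA hB
    rw [inLie_iff]
    exact Pool.Agent.H850.LA.tanH_mono X.ρ hle (h0 (CR_of_semisimpleOver X hss) A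
      ((inLie_bot_iff X A).1 hA) B ((inLie_bot_iff X B).1 hB))
  refine ⟨hS, ?_, ⟨fun h => ⟨hS.1 h.1, hdown h.2⟩, fun h => ⟨hS.2 h.1, hup h.1 h.2⟩⟩, ?_, hbr,
    fun hss hP => open_image X K (hbr hss) hP⟩
  · intro hss v
    constructor
    · rintro ⟨F', hF', hv⟩
      obtain ⟨F'', hF'', hv''⟩ := hF hss F' hF' v hv
      exact ⟨F'', hF'', by rwa [bot_sup_eq]⟩
    · rintro ⟨F', hF', hv⟩
      refine ⟨F', hF', fun τ hτ => hv τ ?_⟩
      rw [bot_sup_eq]
      rw [IntermediateField.fixingSubgroup_sup] at hτ
      exact hτ.2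
  · intro hss
    constructor
    · intro hT F' hF'
      exact (noTrans_iff X hss _).1 (hup hss hT F' hF')
    · intro hN'
      exact hdown fun F' hF' => (noTrans_iff X hss _).2 (hN' F' hF')

/-- one variety -/
theorem one (X : CycleMap F) : ∃ E : HeightOneSpectrum (𝓞 F) → Prop,
    Tendsto (dens E) atTop (𝓝 0) ∧ ∀ v, ¬ E v →
      ∀ K : IntermediateField F (AlgebraicClosure F), IsGalois F K → SplitsCompletely v K →
        X.Transfer K := by
  let _ : MeasurableSpace (GK F) := borel _
  have _ : BorelSpace (GK F) := ⟨rfl⟩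
  let μ : Measure (GK F) := Measure.haarMeasure ⊤
  obtain ⟨B, hB, hB0, h⟩ := (cn_main μ X.cont (stdr X.ρ) (stdr_MC X.ρ)).and
    (Pool.Agent.H850.LA.cn_brackets μ X.cont)
  refine ⟨_, dens_null μ hB hB0, fun v hv K hK hs => ?_⟩
  push Not at hv
  obtain ⟨σ, hσ, hσB⟩ := hv
  obtain ⟨⟨h1, h2⟩, h0⟩ := h σ hσB
  exact transfer X σ h0 h1 h2 K hK fun y hy => hs σ (inDecomposition_of_isFrob hσ) y hy

end Proofs

/-- **The Tate conjecture over extensions in which a place splits completely.** Let `F` be a number
field.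
(a) For every prime `v` of `F` the field `totallyAdic v` is a Galois extension of `F`, and an
extension `K` of `F` is contained in it if and only if `v` splits completely in `K`.
(b) Let `X i` be countably many cycle class maps of varieties over `F`, for arbitrary primes. There
is a set `E` of primes of `F` of natural density zero such that, for every `i` and all but finitely
many primes `v` outside `E`, semisimplicity, potentially fixed classes and the Tate conjecture for
`X i` are the same over `F` and over every Galois extension `K` of `F` in which `v` splits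
completely; if `V` is semisimple, the Lie algebra of the image of the Galois group of `K` contains the
derived algebra of the Lie algebra of the image of the Galois group of `F`, and the former image is
open in the latter if this Lie algebra is perfect. -/
theorem result [NumberField F] {ι : Type} [Countable ι] (X : ι → CycleMap F) :
    (∀ v : HeightOneSpectrum (𝓞 F), IsGalois F (totallyAdic v) ∧
      ∀ K, SplitsCompletely v K ↔ K ≤ totallyAdic v) ∧
    ∃ E : HeightOneSpectrum (𝓞 F) → Prop, Tendsto (dens E) atTop (𝓝 0) ∧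
      ∀ i, ∀ᶠ v in cofinite, ¬ E v → ∀ K : IntermediateField F (AlgebraicClosure F),
        IsGalois F K → SplitsCompletely v K → (X i).Transfer K := by
  refine ⟨fun v => ⟨isGalois_totallyAdic v, splits_iff v⟩, ?_⟩
  choose P hP hPt using fun i => one (X i)
  obtain ⟨E, hE, hEi⟩ := Pool.Agent.H850.RG.exists_diag P hP
  refine ⟨E, hE, fun i => ?_⟩
  have h1 : ∀ᶠ v in cofinite, ¬ (P i v ∧ ¬ E v) := by
    rw [Filter.eventually_cofinite]
    simpa using hEi i
  filter_upwards [h1] with v hv hvE
  exact hPt i v fun h => hv ⟨h, hvE⟩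

end Pool.Agent.Results.MP_89bcae_ag.TotallyAdicNumbers
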